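import Pool.Agent.TVX.Stmt

set_option autoImplicit false

namespace Pool.Agent.Results.MP_396795_al.TransvectionsNotLoxodromic

open Pool.Agent.TVX

universe u v w

/-- Let `Γ` be a subgroup of finite index of `Out(F_n)`. Shears are the automorphisms conjugate in
`Aut(F_n)` to `x_i ↦ x_i u`, all other generators fixed, with `u` a word in at most `n - 4` of the
generators `x_j`, `j ≠ i`; for `n ≥ 5` all transvections `x_i ↦ x_i x_j` are shears (first part).
No power of a shear lying in `Γ` is loxodromic in an isometric action of `Γ` on a Gromov hyperbolic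
space (second part). If `G` is a group detected by hyperbolic spaces (for instance a mapping class
group, by Bestvina, Bromberg and Fujiwara), then every homomorphism `Γ → G` sends the powers of
shears lying in `Γ` to elements of finite order, and if moreover `G` is virtually torsion free, then
the shears `x_i ↦ x_i u` with `u` in a fixed factor (and their conjugates by a fixed automorphism)
lying in `Γ` have finite image (third part). -/
theorem result (n : ℕ) (Γ : Subgroup (OutF n)) (hΓ : Γ.FiniteIndex) :
    (5 ≤ n → ∀ g : AutF n, IsTransvection n g → IsShear n g) ∧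
    ShearsNeverLoxodromic.{u} n Γ ∧
    ∀ (G : Type v) [Group G], DetectedByHyperbolicSpaces.{v, w} G → ∀ φ : Γ →* G,
      (∀ γ : Γ, IsShearPower n Γ γ → IsOfFinOrder (φ γ)) ∧
      (VirtuallyTorsionFree G → ∀ (a : AutF n) (i : Fin n) (J : Finset (Fin n)), i ∉ J →
        J.card + 4 ≤ n → (φ '' shearSet n Γ a i J).Finite) :=
  ⟨fun hn g hg => isShear_of_isTransvection n hn g hg, shearsNeverLoxodromic n Γ hΓ,
    fun G _ hG φ => ⟨fun γ hγ => shears_finOrder n Γ hΓ G hG φ γ hγ,
      fun hvt a i J hi hJ => finite_image n (toOut n) Γ hΓ G hG hvt φ a i J hi hJ⟩⟩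

end Pool.Agent.Results.MP_396795_al.TransvectionsNotLoxodromic
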